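import Pool.Agent.helper45.SGC.Spec

set_option autoImplicit false

namespace Pool.Agent.SGC

open Finset Pool.Agent.helper38.Neg Pool.Agent.helper55.NT

theorem VEX (hCOO : COO_stmt) (hUNB : UNB_stmt) (hBAD : BAD_stmt) (hSPL : SPL_stmt) (hBIC : BIC_stmt) : VEX_stmt := by
  classical
  intro t s m V H hm hH hr hs
  obtain ⟨z', hz'⟩ := hCOO t (3 * (5 * m)) V (by omega)
  let z : Fin 3 × Fin (5 * m) → Fin t := fun q => z' (finProdFinEquiv q)
  have hz : ∀ c : Fin 3 × Fin (5 * m) → ZMod 2, (∀ γ ∈ V, ∑ i, c i * γ (z i) = 0) → c = 0 := by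
    intro c hc
    have h1 := hz' (fun i => c (finProdFinEquiv.symm i)) (fun γ hγ => by
      rw [← hc γ hγ, ← Equiv.sum_comp finProdFinEquiv]
      refine Finset.sum_congr rfl fun i _ => ?_
      rw [Equiv.symm_apply_apply])
    funext q
    have h2 := congrFun h1 (finProdFinEquiv q)
    simpa using h2
  have hL : ∀ g : Fin s, ∃ L : Finset (Fin 3 → Finset (Fin (5 * m))), L.card ≤ s ∧
      ∀ P : Fin 3 → Finset (Fin (5 * m)), (∀ γ ∈ H g, ∑ j, ∑ p ∈ P j, γ (z (j, p)) = 0) → P ∈ L :=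
    fun g => hBAD t (5 * m) s V (H g) z hz (hH g).1 (hH g).2
  choose L hLc hLP using hL
  have hc : (univ.biUnion L).card ≤ s ^ 2 := by
    calc (univ.biUnion L).card ≤ ∑ g, (L g).card := card_biUnion_le
      _ ≤ ∑ _g : Fin s, s := Finset.sum_le_sum fun g _ => hLc g
      _ = s ^ 2 := by simp [pow_two]
  have hb : (s ^ 2) ^ 2 * (2 * (5 * m) + 1) ^ 5 < (2 * (5 * m)).choose (2 * m) := by
    have h1 : (s ^ 2) ^ 2 = s ^ 4 := by rw [← pow_mul]
    rw [h1]
    exact hs.trans_le (hBIC.2 m)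
  obtain ⟨σ, hσ⟩ := hUNB (5 * m) (2 * m) (s ^ 2) (univ.biUnion L) hc hb
  refine ⟨fun e j => z (j, ((σ j).symm e).1), fun γ => (hSPL t (5 * m) z σ γ).1, ?_⟩
  intro g y hy1 hy2
  by_contra hcon
  push Not at hcon
  have h1 : (fun j => pat (σ j) (univ.filter fun e => y e ≠ 0)) ∈ L g := by
    apply hLP g
    intro γ hγ
    rw [← (hSPL t (5 * m) z σ γ).2 y]
    exact hcon γ hγ
  have h2 : hw y = (univ.filter fun e => y e ≠ 0).card := rfl
  refine hσ (univ.filter fun e => y e ≠ 0) (by omega) (by omega) ?_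
  exact Finset.mem_biUnion.2 ⟨g, mem_univ _, h1⟩

end Pool.Agent.SGC
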